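import Pool.Agent.Helper754_Equiv.Tensor

/-!
# Rotation-invariant summands of `V^{⊗p} ⊗ W`

Let `G` be a finite `p`-group, `k` an algebraically closed field of characteristic `p` and `V` a
finite-dimensional representation of `G`. The cyclic group of order `p` acts on `V^{⊗p} ⊗ W` by
rotating the `p` factors `V`. If `V` has no trivial direct summand, then every direct summand of
this `G × C_p`-representation on which `C_p` acts trivially has dimension divisible by `p`.
-/

namespace Pool.Agent.Results.MP_b7753f_al.RotationSummand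

open TensorProduct

/-- The tensor power `V^{⊗p}`, with tensor factors indexed by `ZMod p`. -/
def Pow (p : ℕ) (k V : Type*) [Field k] [AddCommGroup V] [Module k V] : Type _ :=
  ⨂[k] _ : ZMod p, V

noncomputable instance (p : ℕ) (k V : Type*) [Field k] [AddCommGroup V] [Module k V] :
    AddCommGroup (Pow p k V) := (inferInstance : AddCommGroup (⨂[k] _ : ZMod p, V))

noncomputable instance (p : ℕ) (k V : Type*) [Field k] [AddCommGroup V] [Module k V] :
    Module k (Pow p k V) := (inferInstance : Module k (⨂[k] _ : ZMod p, V))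

/-- The space `V^{⊗p} ⊗ W`. -/
def PowTensor (p : ℕ) (k V W : Type*) [Field k] [AddCommGroup V] [Module k V]
    [AddCommGroup W] [Module k W] : Type _ :=
  Pow p k V ⊗[k] W

noncomputable instance (p : ℕ) (k V W : Type*) [Field k] [AddCommGroup V] [Module k V]
    [AddCommGroup W] [Module k W] : AddCommGroup (PowTensor p k V W) :=
  (inferInstance : AddCommGroup (Pow p k V ⊗[k] W))

noncomputable instance (p : ℕ) (k V W : Type*) [Field k] [AddCommGroup V] [Module k V]
    [AddCommGroup W] [Module k W] : Module k (PowTensor p k V W) :=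
  (inferInstance : Module k (Pow p k V ⊗[k] W))

/-- The linear map `a^{⊗p}` on `V^{⊗p}`. -/
noncomputable def diag (p : ℕ) {k V : Type*} [Field k] [AddCommGroup V] [Module k V]
    (a : V →ₗ[k] V) : Pow p k V →ₗ[k] Pow p k V :=
  PiTensorProduct.map (fun _ : ZMod p => a)

/-- The rotation of `V^{⊗p}` by `s : ZMod p`: the factor with index `i` is moved to the index
`i + s`. -/
noncomputable def rotate (p : ℕ) (k V : Type*) [Field k] [AddCommGroup V]
    [Module k V] (s : ZMod p) : Pow p k V →ₗ[k] Pow p k V :=
  (PiTensorProduct.reindex k (fun _ : ZMod p => V) (Equiv.addRight s)).toLinearMap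

/-- The tensor product `a ⊗ b` of `a : V^{⊗p} → V^{⊗p}` and `b : W → W` on `V^{⊗p} ⊗ W`. -/
noncomputable def tmap {p : ℕ} {k V W : Type*} [Field k] [AddCommGroup V] [Module k V]
    [AddCommGroup W] [Module k W] (a : Pow p k V →ₗ[k] Pow p k V) (b : W →ₗ[k] W) :
    PowTensor p k V W →ₗ[k] PowTensor p k V W :=
  TensorProduct.map a b

/-- The action of `(g, s) ∈ G × ZMod p` on `V^{⊗p} ⊗ W`: `g` acts diagonally (by `ρ` on `V` and
by `σ` on `W`), and `s` rotates the `p` factors `V`. -/
noncomputable def act {p : ℕ} {k G V W : Type*} [Field k] [Group G]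
    [AddCommGroup V] [Module k V] [AddCommGroup W] [Module k W]
    (ρ : Representation k G V) (σ : Representation k G W) (g : G) (s : ZMod p) :
    PowTensor p k V W →ₗ[k] PowTensor p k V W :=
  tmap (diag p (ρ g) ∘ₗ rotate p k V s) (σ g)

/-- Let `V`, `W`, `M` be representations `ρ`, `σ`, `μ` of the finite `p`-group `G`, `V` and `M`
finite-dimensional. Let `M`, with `ZMod p` acting trivially, be a direct summand of the
`G × ZMod p`-representation `V^{⊗p} ⊗ W`, as given by equivariant maps `i` and `r` with
`r ∘ i = id`. If `V` has no trivial direct summand (each invariant linear functional `a` on `V`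
kills each invariant vector `v`), then `p` divides the dimension of `M`. -/
theorem result {p : ℕ} [Fact p.Prime] {k : Type*} [Field k] [IsAlgClosed k] [CharP k p]
    {G : Type*} [Group G] [Finite G] (hG : IsPGroup p G)
    {V : Type*} [AddCommGroup V] [Module k V] [FiniteDimensional k V]
    {W : Type*} [AddCommGroup W] [Module k W]
    {M : Type*} [AddCommGroup M] [Module k M] [FiniteDimensional k M]
    (ρ : Representation k G V) (σ : Representation k G W) (μ : Representation k G M)
    (hV : ∀ (v : V) (a : V →ₗ[k] k), (∀ g, ρ g v = v) → (∀ g u, a (ρ g u) = a u) → a v = 0)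
    (i : M →ₗ[k] PowTensor p k V W) (r : PowTensor p k V W →ₗ[k] M)
    (hi : ∀ g s m, i (μ g m) = act ρ σ g s (i m)) (hr : ∀ g s u, r (act ρ σ g s u) = μ g (r u))
    (hri : ∀ m, r (i m) = m) :
    p ∣ Module.finrank k M := by
  by_contra hdim
  have e1 : ∀ g : G, act ρ σ g (0 : ZMod p) =
      TensorProduct.map (PiTensorProduct.map (fun _ : ZMod p => ρ g)) (σ g) := by
    intro g
    change TensorProduct.map ((PiTensorProduct.map (fun _ : ZMod p => ρ g)) ∘ₗ
      (Pool.Agent.Helper754.rotMap p k V 0)) (σ g) = _
    rw [Pool.Agent.Helper754.rotMap_zero, LinearMap.comp_id]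
  have e2 : act ρ σ 1 (1 : ZMod p) =
      TensorProduct.map (Pool.Agent.Helper754.rotMap p k V 1) LinearMap.id := by
    change TensorProduct.map ((PiTensorProduct.map (fun _ : ZMod p => ρ 1)) ∘ₗ
      (Pool.Agent.Helper754.rotMap p k V 1)) (σ 1) = _
    rw [map_one, map_one, Pool.Agent.Helper754.map_one_pow, LinearMap.id_comp]
    rfl
  obtain ⟨v, a, hv, ha, hav⟩ := Pool.Agent.Helper754.fixed_of_tensor hG ρ σ μ r i
    (fun g u => by
      have h := hr g 0 u
      rw [e1] at h
      exact h)
    (fun u => by
      have h := hr 1 1 u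
      rw [e2, map_one, Module.End.one_apply] at h
      exact h)
    (fun g m => by
      have h := hi g 0 m
      rw [e1] at h
      exact h.symm)
    (fun m => by
      have h := hi 1 1 m
      rw [e2, map_one, Module.End.one_apply] at h
      exact h.symm)
    hri hdim
  exact hav (hV v a hv ha)

end Pool.Agent.Results.MP_b7753f_al.RotationSummand
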