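import Pool.Agent.Helper754_Equiv.Tensor

/-!
# Equivariant splitting of the trivial summand of `V^{⊗n}`

Let `G` be a finite `p`-group, `k` an algebraically closed field of characteristic `p` and `V` an
indecomposable representation of `G` such that the trivial representation occurs exactly once as
a direct summand of `V^{⊗n}` (for instance `V` is `p'`-invertible of order dividing `n`). The
trivial summand can be split off equivariantly for the symmetric group `S_n`, up to a character
of `S_n`, if and only if `n < p` or `V` is trivial.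
-/

namespace Pool.Agent.Results.MP_b7753f_al.SymmetricSplitting

open TensorProduct

/-- `ρ` is indecomposable: `V ≠ 0` and `V` is not the direct sum of two nonzero subspaces stable
under `G`. -/
def Indecomposable {k G V : Type*} [Field k] [Group G] [AddCommGroup V] [Module k V]
    (ρ : Representation k G V) : Prop :=
  Nontrivial V ∧ ∀ S T : Submodule k V, (∀ g, ∀ v ∈ S, ρ g v ∈ S) → (∀ g, ∀ v ∈ T, ρ g v ∈ T) →
    IsCompl S T → S = ⊥ ∨ T = ⊥

/-- The tensor power `V^{⊗n}`. -/
def Pow (n : ℕ) (k V : Type*) [Field k] [AddCommGroup V] [Module k V] : Type _ :=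
  ⨂[k] _ : Fin n, V

noncomputable instance (n : ℕ) (k V : Type*) [Field k] [AddCommGroup V] [Module k V] :
    AddCommGroup (Pow n k V) := (inferInstance : AddCommGroup (⨂[k] _ : Fin n, V))

noncomputable instance (n : ℕ) (k V : Type*) [Field k] [AddCommGroup V] [Module k V] :
    Module k (Pow n k V) := (inferInstance : Module k (⨂[k] _ : Fin n, V))

/-- The diagonal action `ρ(g)^{⊗n}` of `g` on `V^{⊗n}`. -/
noncomputable def diag (n : ℕ) {k G V : Type*} [Field k] [Group G] [AddCommGroup V] [Module k V]
    (ρ : Representation k G V) (g : G) : Pow n k V →ₗ[k] Pow n k V :=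
  PiTensorProduct.map (fun _ : Fin n => ρ g)

/-- The permutation of the tensor factors of `V^{⊗n}` by `s ∈ S_n`: the factor with index `i` is
moved to the index `s i`. -/
noncomputable def permute (n : ℕ) (k V : Type*) [Field k] [AddCommGroup V] [Module k V]
    (s : Equiv.Perm (Fin n)) : Pow n k V →ₗ[k] Pow n k V :=
  (PiTensorProduct.reindex k (fun _ : Fin n => V) s).toLinearMap

/-- The trivial representation of dimension `m` is a direct summand of the representation
`V^{⊗n}` of `G`: there are `i` and `r` with `r ∘ i = id`, equivariant for the trivial action on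
`k^m`. -/
def TrivialSummand (m n : ℕ) {k G V : Type*} [Field k] [Group G] [AddCommGroup V] [Module k V]
    (ρ : Representation k G V) : Prop :=
  ∃ (i : (Fin m → k) →ₗ[k] Pow n k V) (r : Pow n k V →ₗ[k] (Fin m → k)),
    (∀ g c, diag n ρ g (i c) = i c) ∧ (∀ g u, r (diag n ρ g u) = r u) ∧ ∀ c, r (i c) = c

/-- The trivial representation of `G` splits off `V^{⊗n}` compatibly with the permutations of the
factors, up to the character `ε` of `S_n`: there are a `G`-invariant tensor `t` and a
`G`-invariant linear functional `f` with `f t = 1` on which `S_n` acts through `ε`. -/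
def SplitsSymmetrically (n : ℕ) {k G V : Type*} [Field k] [Group G] [AddCommGroup V]
    [Module k V] (ρ : Representation k G V) (ε : Equiv.Perm (Fin n) →* kˣ) : Prop :=
  ∃ (t : Pow n k V) (f : Pow n k V →ₗ[k] k),
    (∀ g, diag n ρ g t = t) ∧ (∀ g u, f (diag n ρ g u) = f u) ∧
    (∀ s, permute n k V s t = (ε s : k) • t) ∧
    (∀ s u, f (permute n k V s u) = (ε s : k) * f u) ∧ f t = 1

section

variable {p : ℕ} [hp : Fact p.Prime] {k : Type*} [Field k] {G : Type*} [Group G]
  {V : Type*} [AddCommGroup V] [Module k V]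

theorem ext_pow {n : ℕ} {E : Type*} [AddCommGroup E] [Module k E] {a b : Pow n k V →ₗ[k] E}
    (h : ∀ x, a (PiTensorProduct.tprod k x) = b (PiTensorProduct.tprod k x)) : a = b := by
  apply PiTensorProduct.ext
  ext x
  exact h x

theorem diag_tprod (n : ℕ) (ρ : Representation k G V) (g : G) (x : Fin n → V) :
    diag n ρ g (PiTensorProduct.tprod k x) = PiTensorProduct.tprod k (fun i => ρ g (x i)) :=
  PiTensorProduct.map_tprod _ _

theorem permute_tprod (n : ℕ) (s : Equiv.Perm (Fin n)) (x : Fin n → V) :
    permute n k V s (PiTensorProduct.tprod k x) =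
      PiTensorProduct.tprod k (fun i => x (s.symm i)) :=
  PiTensorProduct.reindex_tprod _ _

theorem permute_one (n : ℕ) (u : Pow n k V) : permute n k V 1 u = u := by
  have h : permute n k V 1 = LinearMap.id := by
    apply ext_pow
    intro x
    rw [permute_tprod]
    rfl
  rw [h, LinearMap.id_apply]

theorem permute_mul (n : ℕ) (s s' : Equiv.Perm (Fin n)) (u : Pow n k V) :
    permute n k V (s * s') u = permute n k V s (permute n k V s' u) := by
  have h : permute n k V (s * s') = permute n k V s ∘ₗ permute n k V s' := by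
    apply ext_pow
    intro x
    rw [permute_tprod, LinearMap.comp_apply, permute_tprod, permute_tprod]
    rfl
  rw [h, LinearMap.comp_apply]

theorem permute_diag (n : ℕ) (ρ : Representation k G V) (g : G) (s : Equiv.Perm (Fin n))
    (u : Pow n k V) : permute n k V s (diag n ρ g u) = diag n ρ g (permute n k V s u) := by
  have h : permute n k V s ∘ₗ diag n ρ g = diag n ρ g ∘ₗ permute n k V s := by
    apply ext_pow
    intro x
    rw [LinearMap.comp_apply, LinearMap.comp_apply, permute_tprod, diag_tprod, diag_tprod,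
      permute_tprod]
  exact LinearMap.congr_fun h u

/-- An invariant vector and functional with nonzero pairing exhaust an indecomposable
representation. -/
theorem trivial_of_pair (ρ : Representation k G V) (hV : Indecomposable ρ) (v : V)
    (a : Module.Dual k V) (hv : ∀ g, ρ g v = v) (ha : ∀ g u, a (ρ g u) = a u) (hav : a v ≠ 0) :
    Module.finrank k V = 1 ∧ ∀ g, ρ g = 1 := by
  have hcompl : IsCompl (Submodule.span k {v}) (LinearMap.ker a) := by
    constructor
    · rw [Submodule.disjoint_def]
      intro x hx hxa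
      obtain ⟨c, rfl⟩ := Submodule.mem_span_singleton.1 hx
      rw [LinearMap.mem_ker, map_smul, smul_eq_mul, mul_eq_zero] at hxa
      rcases hxa with h | h
      · rw [h, zero_smul]
      · exact absurd h hav
    · rw [codisjoint_iff, eq_top_iff]
      intro x _
      have h1 : x = (a x * (a v)⁻¹) • v + (x - (a x * (a v)⁻¹) • v) := by abel
      rw [h1]
      refine Submodule.add_mem_sup (Submodule.smul_mem _ _ (Submodule.mem_span_singleton_self v))
        ?_
      rw [LinearMap.mem_ker, map_sub, map_smul, smul_eq_mul, mul_assoc, inv_mul_cancel₀ hav,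
        mul_one, sub_self]
  have hspan : ∀ g, ∀ x ∈ Submodule.span k {v}, ρ g x ∈ Submodule.span k {v} := by
    intro g x hx
    obtain ⟨c, rfl⟩ := Submodule.mem_span_singleton.1 hx
    rw [map_smul, hv g]
    exact Submodule.smul_mem _ _ (Submodule.mem_span_singleton_self v)
  have hker : ∀ g, ∀ x ∈ LinearMap.ker a, ρ g x ∈ LinearMap.ker a := by
    intro g x hx
    rw [LinearMap.mem_ker, ha g x]
    exact hx
  have hv0 : v ≠ 0 := by
    rintro rfl
    exact hav (map_zero a)
  rcases hV.2 _ _ hspan hker hcompl with h | h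
  · exact absurd (Submodule.span_singleton_eq_bot.1 h) hv0
  · have htop : Submodule.span k {v} = ⊤ := by
      have := hcompl.sup_eq_top
      rwa [h, sup_bot_eq] at this
    refine ⟨?_, fun g => ?_⟩
    · rw [← finrank_top k V, ← htop, finrank_span_singleton hv0]
    · ext x
      have hx : x ∈ Submodule.span k {v} := by rw [htop]; exact Submodule.mem_top
      obtain ⟨c, rfl⟩ := Submodule.mem_span_singleton.1 hx
      rw [map_smul, hv g, Module.End.one_apply]

/-- For `n < p` the equivariant splitting exists, by averaging. -/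
theorem splitting_of_lt [CharP k p] (ρ : Representation k G V) (n : ℕ) (hn : n < p)
    (h1 : TrivialSummand 1 n ρ) (h2 : ¬ TrivialSummand 2 n ρ) :
    ∃ ε : Equiv.Perm (Fin n) →* kˣ, SplitsSymmetrically n ρ ε := by
  classical
  obtain ⟨i, r', hi, hr, hri⟩ := h1
  let P : Equiv.Perm (Fin n) → Pow n k V →ₗ[k] Pow n k V := fun s => permute n k V s
  let Q : G → Pow n k V →ₗ[k] Pow n k V := fun g => diag n ρ g
  have hPmul : ∀ s s' u, P (s * s') u = P s (P s' u) := permute_mul n
  have hPone : ∀ u, P 1 u = u := permute_one n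
  have hPQ : ∀ g s u, P s (Q g u) = Q g (P s u) := permute_diag n ρ
  obtain ⟨t, r, ht, hf, hft⟩ : ∃ (t : Pow n k V) (r : Pow n k V →ₗ[k] k),
      (∀ g, Q g t = t) ∧ (∀ g u, r (Q g u) = r u) ∧ r t = 1 := by
    refine ⟨i (fun _ => 1), (LinearMap.proj 0) ∘ₗ r', fun g => hi g _, fun g u => ?_, ?_⟩
    · change r' (diag n ρ g u) 0 = r' u 0
      rw [hr]
    · change r' (i (fun _ => 1)) 0 = 1
      rw [hri]
  -- the pairing has rank one
  have hrank : ∀ (f1 f2 : Pow n k V →ₗ[k] k) (t1 t2 : Pow n k V),
      (∀ g u, f1 (Q g u) = f1 u) → (∀ g u, f2 (Q g u) = f2 u) → (∀ g, Q g t1 = t1) →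
      (∀ g, Q g t2 = t2) → f1 t1 * f2 t2 = f1 t2 * f2 t1 := by
    intro f1 f2 t1 t2 hf1 hf2 ht1 ht2
    by_contra hne
    apply h2
    have hd : f1 t1 * f2 t2 - f1 t2 * f2 t1 ≠ 0 := sub_ne_zero.2 hne
    set d := f1 t1 * f2 t2 - f1 t2 * f2 t1 with hdd
    refine ⟨{ toFun := fun c => c 0 • t1 + c 1 • t2
              map_add' := fun c c' => by
                simp only [Pi.add_apply, add_smul]
                abel
              map_smul' := fun a c => by
                simp only [Pi.smul_apply, smul_eq_mul, mul_smul, smul_add, RingHom.id_apply] },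
      { toFun := fun u => ![d⁻¹ * (f2 t2 * f1 u - f1 t2 * f2 u),
          d⁻¹ * (f1 t1 * f2 u - f2 t1 * f1 u)]
        map_add' := fun u u' => by
          ext j
          fin_cases j <;> simp <;> ring
        map_smul' := fun a u => by
          ext j
          fin_cases j <;> simp <;> ring }, ?_, ?_, ?_⟩
    · intro g c
      change Q g (c 0 • t1 + c 1 • t2) = c 0 • t1 + c 1 • t2
      rw [map_add, map_smul, map_smul, ht1, ht2]
    · intro g u
      change ![d⁻¹ * (f2 t2 * f1 (Q g u) - f1 t2 * f2 (Q g u)),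
          d⁻¹ * (f1 t1 * f2 (Q g u) - f2 t1 * f1 (Q g u))] =
        ![d⁻¹ * (f2 t2 * f1 u - f1 t2 * f2 u), d⁻¹ * (f1 t1 * f2 u - f2 t1 * f1 u)]
      rw [hf1, hf2]
    · intro c
      change ![d⁻¹ * (f2 t2 * f1 (c 0 • t1 + c 1 • t2) - f1 t2 * f2 (c 0 • t1 + c 1 • t2)),
          d⁻¹ * (f1 t1 * f2 (c 0 • t1 + c 1 • t2) - f2 t1 * f1 (c 0 • t1 + c 1 • t2))] = c
      ext j
      fin_cases j
      · simp only [map_add, map_smul, smul_eq_mul]
        change d⁻¹ * (f2 t2 * (c 0 * f1 t1 + c 1 * f1 t2) -
          f1 t2 * (c 0 * f2 t1 + c 1 * f2 t2)) = c 0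
        have : f2 t2 * (c 0 * f1 t1 + c 1 * f1 t2) - f1 t2 * (c 0 * f2 t1 + c 1 * f2 t2) =
          d * c 0 := by rw [hdd]; ring
        rw [this, ← mul_assoc, inv_mul_cancel₀ hd, one_mul]
      · simp only [map_add, map_smul, smul_eq_mul]
        change d⁻¹ * (f1 t1 * (c 0 * f2 t1 + c 1 * f2 t2) -
          f2 t1 * (c 0 * f1 t1 + c 1 * f1 t2)) = c 1
        have : f1 t1 * (c 0 * f2 t1 + c 1 * f2 t2) - f2 t1 * (c 0 * f1 t1 + c 1 * f1 t2) =
          d * c 1 := by rw [hdd]; ring
        rw [this, ← mul_assoc, inv_mul_cancel₀ hd, one_mul]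
  -- the character
  let e : Equiv.Perm (Fin n) →* k :=
    { toFun := fun s => r (P s t)
      map_one' := by rw [hPone, hft]
      map_mul' := fun s s' => by
        have h := hrank r (r ∘ₗ P s) t (P s' t) hf
          (fun g u => by rw [LinearMap.comp_apply, LinearMap.comp_apply, hPQ, hf]) ht
          (fun g => by rw [← hPQ, ht])
        rw [LinearMap.comp_apply, LinearMap.comp_apply, hft, one_mul, ← hPmul] at h
        rw [h, mul_comm] }
  have he : ∀ s, e s = r (P s t) := fun s => rfl
  let ε : Equiv.Perm (Fin n) →* kˣ := e.toHomUnits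
  have hε : ∀ s, (ε s : k) = e s := fun s => MonoidHom.coe_toHomUnits e s
  have hinv : ∀ s, e s⁻¹ * e s = 1 := by
    intro s
    rw [← map_mul, inv_mul_cancel, map_one]
  let T : Pow n k V := ∑ s, e s⁻¹ • P s t
  let F : Pow n k V →ₗ[k] k := ∑ s, e s⁻¹ • (r ∘ₗ P s)
  have hPT : ∀ s', P s' T = e s' • T := by
    intro s'
    change P s' (∑ s, e s⁻¹ • P s t) = e s' • (∑ s, e s⁻¹ • P s t)
    rw [map_sum, Finset.smul_sum]
    refine Fintype.sum_equiv (Equiv.mulLeft s') _ _ (fun s => ?_)
    rw [map_smul, ← hPmul, Equiv.coe_mulLeft, smul_smul, mul_inv_rev, map_mul]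
    congr 1
    rw [mul_comm, mul_assoc, hinv, mul_one]
  have hFP : ∀ s' u, F (P s' u) = e s' * F u := by
    intro s' u
    change (∑ s, e s⁻¹ • (r ∘ₗ P s)) (P s' u) = e s' * (∑ s, e s⁻¹ • (r ∘ₗ P s)) u
    rw [LinearMap.sum_apply, LinearMap.sum_apply, Finset.mul_sum]
    refine Fintype.sum_equiv (Equiv.mulRight s') _ _ (fun s => ?_)
    rw [LinearMap.smul_apply, LinearMap.smul_apply, LinearMap.comp_apply, LinearMap.comp_apply,
      ← hPmul, Equiv.coe_mulRight, smul_eq_mul, smul_eq_mul, mul_inv_rev, map_mul]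
    have h3 := hinv s'
    change e s⁻¹ * r (P (s * s') u) = e s' * (e s'⁻¹ * e s⁻¹ * r (P (s * s') u))
    rw [← mul_assoc, ← mul_assoc, mul_comm (e s') (e s'⁻¹), h3, one_mul]
  have hfact : ((n.factorial : ℕ) : k) ≠ 0 := by
    rw [Ne, CharP.cast_eq_zero_iff k p, hp.out.dvd_factorial]
    omega
  have hcard : (Fintype.card (Equiv.Perm (Fin n)) : k) = (n.factorial : ℕ) := by
    rw [Fintype.card_perm, Fintype.card_fin]
  have hrT : r T = (n.factorial : ℕ) := by
    change r (∑ s, e s⁻¹ • P s t) = _
    rw [map_sum, ← hcard]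
    rw [Finset.sum_congr rfl (fun s _ => by
      rw [map_smul, smul_eq_mul, ← he, hinv])]
    simp
  have hFT : F T = (n.factorial : ℕ) * (n.factorial : ℕ) := by
    change (∑ s, e s⁻¹ • (r ∘ₗ P s)) T = _
    rw [LinearMap.sum_apply]
    rw [Finset.sum_congr rfl (fun s _ => by
      rw [LinearMap.smul_apply, LinearMap.comp_apply, hPT, map_smul, smul_smul, hinv,
        one_smul, hrT])]
    rw [Finset.sum_const, Finset.card_univ, nsmul_eq_mul, hcard]
  have hQT : ∀ g, Q g T = T := by
    intro g
    change Q g (∑ s, e s⁻¹ • P s t) = ∑ s, e s⁻¹ • P s t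
    rw [map_sum]
    refine Finset.sum_congr rfl (fun s _ => ?_)
    rw [map_smul, ← hPQ, ht]
  have hFQ : ∀ g u, F (Q g u) = F u := by
    intro g u
    change (∑ s, e s⁻¹ • (r ∘ₗ P s)) (Q g u) = (∑ s, e s⁻¹ • (r ∘ₗ P s)) u
    rw [LinearMap.sum_apply, LinearMap.sum_apply]
    refine Finset.sum_congr rfl (fun s _ => ?_)
    rw [LinearMap.smul_apply, LinearMap.smul_apply, LinearMap.comp_apply, LinearMap.comp_apply,
      hPQ, hf]
  have hFT0 : F T ≠ 0 := by
    rw [hFT]
    exact mul_ne_zero hfact hfact
  refine ⟨ε, (F T)⁻¹ • T, F, ?_, hFQ, ?_, ?_, ?_⟩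
  · intro g
    change Q g ((F T)⁻¹ • T) = _
    rw [map_smul, hQT]
  · intro s
    change P s ((F T)⁻¹ • T) = _
    rw [map_smul, hPT, hε, smul_comm]
  · intro s u
    rw [hε]
    exact hFP s u
  · rw [map_smul, smul_eq_mul, inv_mul_cancel₀ hFT0]

/-- If `V` is one-dimensional with trivial action, `V^{⊗n}` is the trivial representation of
`G × S_n`. -/
theorem splitting_of_trivial (ρ : Representation k G V) (n : ℕ)
    (hdim : Module.finrank k V = 1) (htriv : ∀ g, ρ g = 1) :
    ∃ ε : Equiv.Perm (Fin n) →* kˣ, SplitsSymmetrically n ρ ε := by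
  classical
  obtain ⟨v, hv0, hv⟩ := finrank_eq_one_iff'.1 hdim
  obtain ⟨a, ha⟩ : ∃ a : Module.Dual k V, a v ≠ 0 := by
    by_contra hcon
    push Not at hcon
    exact hv0 ((Module.forall_dual_apply_eq_zero_iff k v).1 hcon)
  let a' : Module.Dual k V := (a v)⁻¹ • a
  have ha' : a' v = 1 := by
    change (a v)⁻¹ • a v = 1
    rw [smul_eq_mul, inv_mul_cancel₀ ha]
  let t : Pow n k V := PiTensorProduct.tprod k (fun _ => v)
  let f : Pow n k V →ₗ[k] k := Pool.Agent.Helper754.evalTensor (fun _ => a')
  have hf : ∀ x, f (PiTensorProduct.tprod k x) = ∏ i, a' (x i) := fun x =>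
    Pool.Agent.Helper754.evalTensor_tprod (fun _ => a') x
  refine ⟨1, t, f, ?_, ?_, ?_, ?_, ?_⟩
  · intro g
    change diag n ρ g (PiTensorProduct.tprod k (fun _ => v)) = _
    rw [diag_tprod, htriv g]
    rfl
  · intro g u
    have h : f ∘ₗ (diag n ρ g) = f := by
      apply ext_pow
      intro x
      rw [LinearMap.comp_apply, diag_tprod, htriv g]
      rfl
    exact LinearMap.congr_fun h u
  · intro s
    change permute n k V s (PiTensorProduct.tprod k (fun _ => v)) = _
    rw [permute_tprod, MonoidHom.one_apply, Units.val_one, one_smul]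
  · intro s u
    have h : f ∘ₗ (permute n k V s) = f := by
      apply ext_pow
      intro x
      rw [LinearMap.comp_apply, permute_tprod, hf, hf]
      exact Fintype.prod_equiv s.symm _ _ (fun i => rfl)
    rw [MonoidHom.one_apply, Units.val_one, one_mul]
    exact LinearMap.congr_fun h u
  · change f (PiTensorProduct.tprod k (fun _ => v)) = 1
    rw [hf]
    simp [ha']

/-- For `n ≥ p` an equivariant splitting forces a trivial direct summand of `V` itself. -/
theorem pair_of_splitting [CharP k p] [IsAlgClosed k] [Finite G] (hG : IsPGroup p G)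
    [FiniteDimensional k V] (ρ : Representation k G V) (n : ℕ) (hn : p ≤ n)
    (ε : Equiv.Perm (Fin n) →* kˣ) (h : SplitsSymmetrically n ρ ε) :
    ∃ (v : V) (a : Module.Dual k V), (∀ g, ρ g v = v) ∧ (∀ g u, a (ρ g u) = a u) ∧ a v ≠ 0 := by
  classical
  obtain ⟨t, f, htg, hfg, hts, hfs, hft⟩ := h
  -- index sets
  have hcard : Fintype.card (ZMod p ⊕ Fin (n - p)) = Fintype.card (Fin n) := by
    rw [Fintype.card_sum, ZMod.card, Fintype.card_fin, Fintype.card_fin]
    omega
  let e : (ZMod p ⊕ Fin (n - p)) ≃ Fin n := Fintype.equivOfCardEq hcard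
  let c : Equiv.Perm (ZMod p ⊕ Fin (n - p)) :=
    Equiv.sumCongr (Equiv.addRight (1 : ZMod p)) (Equiv.refl _)
  let s : Equiv.Perm (Fin n) := (e.symm.trans c).trans e
  have hcpow : ∀ m : ℕ, (∀ i : ZMod p, (c ^ m) (Sum.inl i) = Sum.inl (i + m)) ∧
      (∀ j : Fin (n - p), (c ^ m) (Sum.inr j) = Sum.inr j) := by
    intro m
    induction m with
    | zero => exact ⟨fun i => by simp, fun j => by simp⟩
    | succ m ih =>
      refine ⟨fun i => ?_, fun j => ?_⟩
      · rw [pow_succ', Equiv.Perm.mul_apply, ih.1]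
        change Sum.inl ((i + m) + 1) = _
        push_cast
        rw [add_assoc]
      · rw [pow_succ', Equiv.Perm.mul_apply, ih.2]
        rfl
  have hspow : ∀ (m : ℕ) (j : Fin n), (s ^ m) j = e ((c ^ m) (e.symm j)) := by
    intro m
    induction m with
    | zero => intro j; simp
    | succ m ih =>
      intro j
      rw [pow_succ', Equiv.Perm.mul_apply, ih, pow_succ', Equiv.Perm.mul_apply]
      change e (c (e.symm (e _))) = _
      rw [Equiv.symm_apply_apply]
  have hsp : s ^ p = 1 := by
    ext j
    rw [hspow]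
    obtain ⟨x, rfl⟩ := e.surjective j
    rw [Equiv.symm_apply_apply]
    rcases x with x | x
    · rw [(hcpow p).1]
      simp
    · rw [(hcpow p).2]
      simp
  have hεs : (ε s : k) = 1 := by
    have h1 : (ε s : k) ^ p = 1 := by
      rw [← Units.val_pow_eq_pow_val, ← map_pow, hsp, map_one, Units.val_one]
    apply Pool.Agent.Helper754.pow_inj (p := p)
    rw [h1, one_pow]
  -- the identification of the tensor powers
  let Θ : ((⨂[k] _ : ZMod p, V) ⊗[k] Pow (n - p) k V) ≃ₗ[k] Pow n k V :=
    (PiTensorProduct.tmulEquiv k V).trans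
      (PiTensorProduct.reindex k (fun _ : ZMod p ⊕ Fin (n - p) => V) e)
  have hΘ : ∀ (x : ZMod p → V) (y : Fin (n - p) → V),
      Θ ((PiTensorProduct.tprod k x) ⊗ₜ[k] (PiTensorProduct.tprod k y)) =
        PiTensorProduct.tprod k (fun j => Sum.elim x y (e.symm j)) := by
    intro x y
    have h1 := PiTensorProduct.tmulEquiv_apply (R := k) (M := V) x y
    have h2 := PiTensorProduct.reindex_tprod (R := k)
      (s := fun _ : ZMod p ⊕ Fin (n - p) => V) e (Sum.elim x y)
    rw [← h1] at h2
    exact h2
  let σ : Representation k G (Pow (n - p) k V) :=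
    { toFun := fun g => diag (n - p) ρ g
      map_one' := by
        apply ext_pow
        intro x
        rw [diag_tprod, map_one]
        rfl
      map_mul' := fun g h => by
        apply ext_pow
        intro x
        rw [diag_tprod, map_mul, Module.End.mul_apply, diag_tprod, diag_tprod]
        rfl }
  have hσ : ∀ g (y : Fin (n - p) → V), σ g (PiTensorProduct.tprod k y) =
      PiTensorProduct.tprod k (fun j => ρ g (y j)) := fun g y => diag_tprod (n - p) ρ g y
  have ext2 : ∀ {f g : ((⨂[k] _ : ZMod p, V) ⊗[k] Pow (n - p) k V) →ₗ[k]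
      Pow n k V}, (∀ x y, f ((PiTensorProduct.tprod k x) ⊗ₜ[k]
        (PiTensorProduct.tprod k y)) = g ((PiTensorProduct.tprod k x) ⊗ₜ[k]
        (PiTensorProduct.tprod k y))) → f = g := by
    intro f g hfg
    apply TensorProduct.ext
    apply PiTensorProduct.ext
    ext x : 1
    apply ext_pow
    intro y
    exact hfg x y
  have hΘg : ∀ g u, Θ (TensorProduct.map (PiTensorProduct.map (fun _ => ρ g)) (σ g) u) =
      diag n ρ g (Θ u) := by
    intro g u
    have h : Θ.toLinearMap ∘ₗ (TensorProduct.map (PiTensorProduct.map (fun _ => ρ g)) (σ g)) =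
        (diag n ρ g) ∘ₗ Θ.toLinearMap := by
      apply ext2
      intro x y
      rw [LinearMap.comp_apply, LinearMap.comp_apply, TensorProduct.map_tmul,
        PiTensorProduct.map_tprod, hσ, LinearEquiv.coe_coe, hΘ, hΘ, diag_tprod]
      congr 1
      funext j
      rcases e.symm j with a | a <;> rfl
    exact LinearMap.congr_fun h u
  have hΘs : ∀ u, Θ (TensorProduct.map (Pool.Agent.Helper754.rotMap p k V 1) LinearMap.id u) =
      permute n k V s (Θ u) := by
    intro u
    have h : Θ.toLinearMap ∘ₗ
        (TensorProduct.map (Pool.Agent.Helper754.rotMap p k V 1) LinearMap.id) =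
        (permute n k V s) ∘ₗ Θ.toLinearMap := by
      apply ext2
      intro x y
      rw [LinearMap.comp_apply, LinearMap.comp_apply, TensorProduct.map_tmul,
        Pool.Agent.Helper754.rotMap_tprod, LinearEquiv.coe_coe, LinearMap.id_apply, hΘ, hΘ,
        permute_tprod]
      congr 1
      funext j
      change _ = Sum.elim x y (e.symm (e (c.symm (e.symm j))))
      rw [Equiv.symm_apply_apply]
      rcases e.symm j with a | a
      · change x (a - 1) = x (a + -1)
        rw [sub_eq_add_neg]
      · rfl
    exact LinearMap.congr_fun h u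
  refine Pool.Agent.Helper754.fixed_of_tensor hG ρ σ (Representation.trivial k G k)
    (f ∘ₗ Θ.toLinearMap) (Θ.symm.toLinearMap ∘ₗ (LinearMap.toSpanSingleton k _ t))
    ?_ ?_ ?_ ?_ ?_ ?_
  · intro g u
    rw [LinearMap.comp_apply, LinearMap.comp_apply, LinearEquiv.coe_coe, hΘg, hfg,
      Representation.trivial_apply]
  · intro u
    rw [LinearMap.comp_apply, LinearMap.comp_apply, LinearEquiv.coe_coe, hΘs, hfs, hεs, one_mul]
  · intro g m
    rw [LinearMap.comp_apply, LinearMap.comp_apply, LinearEquiv.coe_coe,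
      Representation.trivial_apply]
    apply Θ.injective
    rw [hΘg, LinearEquiv.apply_symm_apply, LinearMap.toSpanSingleton_apply, map_smul, htg]
  · intro m
    rw [LinearMap.comp_apply, LinearEquiv.coe_coe]
    apply Θ.injective
    rw [hΘs, LinearEquiv.apply_symm_apply, LinearMap.toSpanSingleton_apply, map_smul, hts, hεs,
      one_smul]
  · intro m
    rw [LinearMap.comp_apply, LinearMap.comp_apply, LinearEquiv.coe_coe, LinearEquiv.coe_coe,
      LinearEquiv.apply_symm_apply, LinearMap.toSpanSingleton_apply, map_smul, hft, smul_eq_mul,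
      mul_one]
  · rw [Module.finrank_self]
    exact fun h => hp.out.one_lt.ne' (Nat.dvd_one.1 h)

end

/-- Let `V` be an indecomposable representation of the finite `p`-group `G` such that the trivial
representation is a direct summand of `V^{⊗n}` with multiplicity exactly one. Then it splits off
`S_n`-equivariantly up to a character of `S_n` if and only if `n < p` or `V` is trivial. -/
theorem result {p : ℕ} [Fact p.Prime] {k : Type*} [Field k] [IsAlgClosed k] [CharP k p]
    {G : Type*} [Group G] [Finite G] (hG : IsPGroup p G)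
    {V : Type*} [AddCommGroup V] [Module k V] [FiniteDimensional k V]
    (ρ : Representation k G V) (hV : Indecomposable ρ) (n : ℕ)
    (h1 : TrivialSummand 1 n ρ) (h2 : ¬ TrivialSummand 2 n ρ) :
    (∃ ε : Equiv.Perm (Fin n) →* kˣ, SplitsSymmetrically n ρ ε) ↔
      (n < p ∨ (Module.finrank k V = 1 ∧ ∀ g, ρ g = 1)) := by
  constructor
  · rintro ⟨ε, h⟩
    by_cases hn : n < p
    · exact Or.inl hn
    · right
      obtain ⟨v, a, hv, ha, hav⟩ := pair_of_splitting hG ρ n (not_lt.1 hn) ε h
      exact trivial_of_pair ρ hV v a hv ha hav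
  · rintro (hn | ⟨hdim, htriv⟩)
    · exact splitting_of_lt ρ n hn h1 h2
    · exact splitting_of_trivial ρ n hdim htriv

end Pool.Agent.Results.MP_b7753f_al.SymmetricSplitting
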